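import Pool.Agent.H29.R2.Targets2

/-!
# Module MKL: the mean with weights `log p`
-/

set_option autoImplicit false

open Filter Topology

namespace Pool.Agent.H84.R2

open Pool.Agent.H29.R2 Pool.Agent.H29.RT

/-- the power sum -/
noncomputable def FF (w : ℕ → ℝ) (L x : ℝ) : ℝ := ∑' p : Nat.Primes, w p * (p : ℝ) ^ (-(1 + x / L))

theorem mkl_sum (w : ℕ → ℝ) (h0 : ∀ n, 0 ≤ w n) (C : ℝ) (hC : ∀ p : Nat.Primes, w p ≤ C)
    (L x : ℝ) (hL : 0 < L) (hx : 0 < x) :
    Summable (fun p : Nat.Primes => w p * (p : ℝ) ^ (-(1 + x / L))) := by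
  have h1 : Summable (fun p : Nat.Primes => C * (p : ℝ) ^ (-(1 + x / L))) := by
    apply Summable.mul_left
    rw [Nat.Primes.summable_rpow]
    have := div_pos hx hL
    linarith
  refine Summable.of_nonneg_of_le (fun p => ?_) (fun p => ?_) h1
  · exact mul_nonneg (h0 _) (Real.rpow_nonneg (Nat.cast_nonneg _) _)
  · exact mul_le_mul_of_nonneg_right (hC p) (Real.rpow_nonneg (Nat.cast_nonneg _) _)

/-- the upper inequality for one prime -/
theorem mkl_up (w : ℕ → ℝ) (h0 : ∀ n, 0 ≤ w n) (L x h : ℝ) (hL : 0 < L) (p : Nat.Primes) :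
    h / L * (w p * Real.log p * (p : ℝ) ^ (-(1 + x / L))) ≤
      w p * (p : ℝ) ^ (-(1 + (x - h) / L)) - w p * (p : ℝ) ^ (-(1 + x / L)) := by
  have hp : (0 : ℝ) < (p : ℕ) := by exact_mod_cast p.2.pos
  have e1 : (p : ℝ) ^ (-(1 + (x - h) / L)) =
      (p : ℝ) ^ (-(1 + x / L)) * Real.exp (Real.log p * (h / L)) := by
    rw [Real.rpow_def_of_pos hp, Real.rpow_def_of_pos hp, ← Real.exp_add]
    congr 1
    field_simp
    ring
  have e2 := Real.add_one_le_exp (Real.log p * (h / L))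
  have e3 : 0 ≤ w p * (p : ℝ) ^ (-(1 + x / L)) :=
    mul_nonneg (h0 _) (Real.rpow_nonneg hp.le _)
  rw [e1]
  nlinarith [mul_le_mul_of_nonneg_left e2 e3]

/-- the lower inequality for one prime -/
theorem mkl_lo (w : ℕ → ℝ) (h0 : ∀ n, 0 ≤ w n) (L x h : ℝ) (hL : 0 < L) (p : Nat.Primes) :
    w p * (p : ℝ) ^ (-(1 + x / L)) - w p * (p : ℝ) ^ (-(1 + (x + h) / L)) ≤
      h / L * (w p * Real.log p * (p : ℝ) ^ (-(1 + x / L))) := by
  have hp : (0 : ℝ) < (p : ℕ) := by exact_mod_cast p.2.pos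
  have e1 : (p : ℝ) ^ (-(1 + (x + h) / L)) =
      (p : ℝ) ^ (-(1 + x / L)) * Real.exp (-(Real.log p * (h / L))) := by
    rw [Real.rpow_def_of_pos hp, Real.rpow_def_of_pos hp, ← Real.exp_add]
    congr 1
    field_simp
    ring
  have e2 := Real.add_one_le_exp (-(Real.log p * (h / L)))
  have e3 : 0 ≤ w p * (p : ℝ) ^ (-(1 + x / L)) :=
    mul_nonneg (h0 _) (Real.rpow_nonneg hp.le _)
  rw [e1]
  nlinarith [mul_le_mul_of_nonneg_left e2 e3]

theorem mkl_logsum (w : ℕ → ℝ) (h0 : ∀ n, 0 ≤ w n) (C : ℝ) (hC : ∀ p : Nat.Primes, w p ≤ C)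
    (L x : ℝ) (hL : 0 < L) (hx : 0 < x) :
    Summable (fun p : Nat.Primes => w p * Real.log p * (p : ℝ) ^ (-(1 + x / L))) := by
  have hh : 0 < x / 2 := by linarith
  have h1 : Summable (fun p : Nat.Primes => (L / (x / 2)) *
      (w p * (p : ℝ) ^ (-(1 + (x - x / 2) / L)) - w p * (p : ℝ) ^ (-(1 + x / L)))) := by
    apply Summable.mul_left
    exact (mkl_sum w h0 C hC L (x - x / 2) hL (by linarith)).sub (mkl_sum w h0 C hC L x hL hx)
  refine Summable.of_nonneg_of_le (fun p => ?_) (fun p => ?_) h1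
  · exact mul_nonneg (mul_nonneg (h0 _) (Real.log_natCast_nonneg _))
      (Real.rpow_nonneg (Nat.cast_nonneg _) _)
  · have h2 := mkl_up w h0 L x (x / 2) hL p
    have h3 : 0 < L / (x / 2) := div_pos hL hh
    calc w p * Real.log p * (p : ℝ) ^ (-(1 + x / L)) = (L / (x / 2)) *
        (x / 2 / L * (w p * Real.log p * (p : ℝ) ^ (-(1 + x / L)))) := by
          field_simp
      _ ≤ _ := mul_le_mul_of_nonneg_left h2 h3.le

theorem mkl_UP (w : ℕ → ℝ) (h0 : ∀ n, 0 ≤ w n) (C : ℝ) (hC : ∀ p : Nat.Primes, w p ≤ C)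
    (L x h : ℝ) (hL : 0 < L) (hx : 0 < x) (hxh : h < x) :
    h * ((∑' p : Nat.Primes, w p * Real.log p * (p : ℝ) ^ (-(1 + x / L))) / L) ≤
      FF w L (x - h) - FF w L x := by
  have s1 := mkl_logsum w h0 C hC L x hL hx
  have s2 := mkl_sum w h0 C hC L (x - h) hL (by linarith)
  have s3 := mkl_sum w h0 C hC L x hL hx
  have e : h * ((∑' p : Nat.Primes, w p * Real.log p * (p : ℝ) ^ (-(1 + x / L))) / L) =
      ∑' p : Nat.Primes, h / L * (w p * Real.log p * (p : ℝ) ^ (-(1 + x / L))) := by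
    rw [tsum_mul_left]
    ring
  rw [e]
  unfold FF
  rw [← s2.tsum_sub s3]
  exact Summable.tsum_le_tsum (fun p => mkl_up w h0 L x h hL p) (s1.mul_left _) (s2.sub s3)

theorem mkl_LO (w : ℕ → ℝ) (h0 : ∀ n, 0 ≤ w n) (C : ℝ) (hC : ∀ p : Nat.Primes, w p ≤ C)
    (L x h : ℝ) (hL : 0 < L) (hx : 0 < x) (hh : 0 < h) :
    FF w L x - FF w L (x + h) ≤
      h * ((∑' p : Nat.Primes, w p * Real.log p * (p : ℝ) ^ (-(1 + x / L))) / L) := by
  have s1 := mkl_logsum w h0 C hC L x hL hx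
  have s2 := mkl_sum w h0 C hC L (x + h) hL (by linarith)
  have s3 := mkl_sum w h0 C hC L x hL hx
  have e : h * ((∑' p : Nat.Primes, w p * Real.log p * (p : ℝ) ^ (-(1 + x / L))) / L) =
      ∑' p : Nat.Primes, h / L * (w p * Real.log p * (p : ℝ) ^ (-(1 + x / L))) := by
    rw [tsum_mul_left]
    ring
  rw [e]
  unfold FF
  rw [← s3.tsum_sub s2]
  exact Summable.tsum_le_tsum (fun p => mkl_lo w h0 L x h hL p) (s3.sub s2) (s1.mul_left _)

theorem mkl_scale (w : ℕ → ℝ) (L x : ℝ) (q : ℝ) (hq : q ≠ 0) :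
    FF w (q * L) (q * x) = FF w L x := by
  unfold FF
  rw [mul_div_mul_left _ _ hq]

/-- the difference of two power sums in terms of `Mean` -/
theorem mkl_mean (w : ℕ → ℝ) (α : ℝ) (h0 : ∀ n, 0 ≤ w n) (C : ℝ)
    (hC : ∀ p : Nat.Primes, w p ≤ C) (hM : Mean w α) (q : ℕ) (hq : 1 ≤ q) (a b : ℕ) (ha : 1 ≤ a)
    (hb : 1 ≤ b) :
    Tendsto (fun L : ℝ => FF w (q * L) a - FF w (q * L) b) atTop
      (𝓝 (α * (Real.log b - Real.log a))) := by
  have hq0 : (0 : ℝ) < q := by exact_mod_cast hq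
  have h1 := (hM a ha).sub (hM b hb)
  have h2 : Tendsto (fun L : ℝ => (q : ℝ) * L) atTop atTop := tendsto_id.const_mul_atTop hq0
  have h3 := h1.comp h2
  have e : -(α * Real.log a) - -(α * Real.log b) = α * (Real.log b - Real.log a) := by ring
  rw [e] at h3
  refine h3.congr' ?_
  filter_upwards [eventually_gt_atTop (0 : ℝ)] with L hL
  have hqL : 0 < (q : ℝ) * L := mul_pos hq0 hL
  have sa := mkl_sum w h0 C hC (q * L) a hqL (by exact_mod_cast ha)
  have sb := mkl_sum w h0 C hC (q * L) b hqL (by exact_mod_cast hb)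
  have s1 := mkl_sum w h0 C hC (q * L) 1 hqL one_pos
  simp only [Function.comp]
  unfold FF
  have ea : ∑' p : Nat.Primes, w p * ((p : ℝ) ^ (-(1 + (a : ℝ) / (q * L)) : ℝ) -
      (p : ℝ) ^ (-(1 + 1 / (q * L)) : ℝ)) =
      ∑' p : Nat.Primes, w p * (p : ℝ) ^ (-(1 + (a : ℝ) / (q * L))) -
      ∑' p : Nat.Primes, w p * (p : ℝ) ^ (-(1 + 1 / (q * L))) := by
    rw [← sa.tsum_sub s1]
    exact tsum_congr (fun p => mul_sub _ _ _)
  have eb : ∑' p : Nat.Primes, w p * ((p : ℝ) ^ (-(1 + (b : ℝ) / (q * L)) : ℝ) -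
      (p : ℝ) ^ (-(1 + 1 / (q * L)) : ℝ)) =
      ∑' p : Nat.Primes, w p * (p : ℝ) ^ (-(1 + (b : ℝ) / (q * L))) -
      ∑' p : Nat.Primes, w p * (p : ℝ) ^ (-(1 + 1 / (q * L))) := by
    rw [← sb.tsum_sub s1]
    exact tsum_congr (fun p => mul_sub _ _ _)
  rw [ea, eb]
  ring

/-- the mean is not negative -/
theorem mkl_nonneg (w : ℕ → ℝ) (α : ℝ) (h0 : ∀ n, 0 ≤ w n) (hM : Mean w α) : 0 ≤ α := by
  have h1 := hM 2 (by norm_num)
  have h2 : -(α * Real.log ((2 : ℕ) : ℝ)) ≤ 0 := by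
    refine le_of_tendsto h1 ?_
    filter_upwards [eventually_gt_atTop (0 : ℝ)] with L hL
    apply tsum_nonpos
    intro p
    have hp : (1 : ℝ) ≤ (p : ℕ) := by exact_mod_cast p.2.one_le
    apply mul_nonpos_of_nonneg_of_nonpos (h0 _)
    rw [sub_nonpos]
    apply Real.rpow_le_rpow_of_exponent_le hp
    have : (1 : ℝ) / L ≤ ((2 : ℕ) : ℝ) / L := by
      apply div_le_div_of_nonneg_right _ hL.le
      norm_num
    linarith
  have h3 : 0 < Real.log ((2 : ℕ) : ℝ) := by
    apply Real.log_pos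
    norm_num
  by_contra hcon
  push Not at hcon
  nlinarith

theorem pf_MKL : T_MKL := by
  intro w α h0 ⟨C, hC⟩ hM s hs
  have hα := mkl_nonneg w α h0 hM
  have hs0 : (0 : ℝ) < s := by exact_mod_cast hs
  rw [tendsto_order]
  constructor
  · intro a ha
    -- choose `q`
    have hlim : Tendsto (fun q : ℕ => α * ((1 : ℝ) / (s + 1 / (q : ℝ)))) atTop
        (𝓝 (α * (1 / (s + 0)))) := by
      refine Tendsto.const_mul _ (Tendsto.div tendsto_const_nhds
        (tendsto_const_nhds.add tendsto_one_div_atTop_nhds_zero_nat) ?_)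
      rw [add_zero]
      exact hs0.ne'
    rw [add_zero, mul_one_div] at hlim
    obtain ⟨q, hq1, hq2⟩ := ((hlim.eventually (lt_mem_nhds ha)).and (eventually_ge_atTop 1)).exists
    have hq0 : (0 : ℝ) < q := by exact_mod_cast hq2
    have hT := mkl_mean w α h0 C hC hM q hq2 (q * s) (q * s + 1)
      (Nat.mul_pos (by omega) (by omega)) (by omega)
    have hval : a / q < α * (Real.log ((q * s + 1 : ℕ) : ℝ) - Real.log ((q * s : ℕ) : ℝ)) := by
      have hqs : (0 : ℝ) < (q * s : ℕ) := by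
        exact_mod_cast Nat.mul_pos (by omega) (by omega)
      have h1 : (1 : ℝ) / (q * s + 1) ≤
          Real.log ((q * s + 1 : ℕ) : ℝ) - Real.log ((q * s : ℕ) : ℝ) := by
        rw [← Real.log_div (by positivity) hqs.ne']
        have h2 := Real.one_sub_inv_le_log_of_pos
          (show (0 : ℝ) < ((q * s + 1 : ℕ) : ℝ) / ((q * s : ℕ) : ℝ) by positivity)
        refine le_trans (le_of_eq ?_) h2
        rw [inv_div]
        push_cast
        field_simp
        ring
      have h3 : a < α * (q / (q * s + 1)) := by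
        refine lt_of_lt_of_eq hq1 ?_
        congr 1
        field_simp
      calc a / q < α * (q / (q * s + 1)) / q := by gcongr
        _ = α * (1 / (q * s + 1)) := by field_simp
        _ ≤ _ := mul_le_mul_of_nonneg_left h1 hα
    filter_upwards [hT.eventually (lt_mem_nhds hval), eventually_gt_atTop (0 : ℝ)] with L h1 hL
    have h2 := mkl_LO w h0 C hC L s (1 / q) hL hs0 (by positivity)
    have e1 : FF w (q * L) ((q * s : ℕ) : ℝ) = FF w L s := by
      rw [Nat.cast_mul]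
      exact mkl_scale w L s q hq0.ne'
    have e2 : FF w (q * L) ((q * s + 1 : ℕ) : ℝ) = FF w L (s + 1 / q) := by
      rw [← mkl_scale w L (s + 1 / q) q hq0.ne']
      congr 1
      push_cast
      field_simp
    rw [e1, e2] at h1
    have h3 := h1.trans_le h2
    rw [div_eq_mul_one_div, mul_comm a] at h3
    exact lt_of_mul_lt_mul_left h3 (by positivity)
  · intro a ha
    have hlim : Tendsto (fun q : ℕ => α * ((1 : ℝ) / (s - 1 / (q : ℝ)))) atTop
        (𝓝 (α * (1 / (s - 0)))) := by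
      refine Tendsto.const_mul _ (Tendsto.div tendsto_const_nhds
        (tendsto_const_nhds.sub tendsto_one_div_atTop_nhds_zero_nat) ?_)
      rw [sub_zero]
      exact hs0.ne'
    rw [sub_zero, mul_one_div] at hlim
    obtain ⟨q, hq1, hq2⟩ := ((hlim.eventually (gt_mem_nhds ha)).and (eventually_ge_atTop 2)).exists
    have hq0 : (0 : ℝ) < q := by exact_mod_cast (by omega : 0 < q)
    have hqs2 : 2 ≤ q * s := le_trans hq2 (Nat.le_mul_of_pos_right q (by omega))
    have hT := mkl_mean w α h0 C hC hM q (by omega) (q * s - 1) (q * s) (by omega) (by omega)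
    have hqs : (2 : ℝ) ≤ q * s := by exact_mod_cast hqs2
    have hcast : ((q * s - 1 : ℕ) : ℝ) = q * s - 1 := by
      rw [Nat.cast_sub (by omega)]
      push_cast
      ring
    have hval : α * (Real.log ((q * s : ℕ) : ℝ) - Real.log ((q * s - 1 : ℕ) : ℝ)) < a / q := by
      have h1 : Real.log ((q * s : ℕ) : ℝ) - Real.log ((q * s - 1 : ℕ) : ℝ) ≤
          (1 : ℝ) / (q * s - 1) := by
        rw [hcast, Nat.cast_mul, ← Real.log_div (by positivity) (by linarith)]
        have h2 := Real.log_le_sub_one_of_pos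
          (show (0 : ℝ) < ((q : ℝ) * s) / (q * s - 1) from div_pos (by positivity) (by linarith))
        refine le_trans h2 (le_of_eq ?_)
        have : (q : ℝ) * s - 1 ≠ 0 := by linarith
        field_simp
        ring
      have h3 : α * (q / (q * s - 1)) < a := by
        refine lt_of_eq_of_lt ?_ hq1
        congr 1
        have h4 : (q : ℝ) * s - 1 ≠ 0 := by linarith
        have h5 : (s : ℝ) - 1 / q = (q * s - 1) / q := by
          field_simp
        rw [h5]
        field_simp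
      calc α * (Real.log ((q * s : ℕ) : ℝ) - Real.log ((q * s - 1 : ℕ) : ℝ)) ≤
            α * (1 / (q * s - 1)) := mul_le_mul_of_nonneg_left h1 hα
        _ = α * (q / (q * s - 1)) / q := by field_simp
        _ < a / q := by gcongr
    filter_upwards [hT.eventually (gt_mem_nhds hval), eventually_gt_atTop (0 : ℝ)] with L h1 hL
    have hlt : (1 : ℝ) / q < s := by
      rw [div_lt_iff₀ hq0]
      nlinarith
    have h2 := mkl_UP w h0 C hC L s (1 / q) hL hs0 hlt
    have e1 : FF w (q * L) ((q * s : ℕ) : ℝ) = FF w L s := by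
      rw [Nat.cast_mul]
      exact mkl_scale w L s q hq0.ne'
    have e2 : FF w (q * L) ((q * s - 1 : ℕ) : ℝ) = FF w L (s - 1 / q) := by
      rw [← mkl_scale w L (s - 1 / q) q hq0.ne', hcast]
      congr 1
      field_simp
    rw [e1, e2] at h1
    have h3 := h2.trans_lt h1
    rw [div_eq_mul_one_div a, mul_comm a] at h3
    exact lt_of_mul_lt_mul_left h3 (by positivity)

end Pool.Agent.H84.R2
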